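import Pool.Agent.H74.OLP.Targets2

/-!
# olp_modules, row LFI: from labels to an oriented cycle double cover
-/

set_option autoImplicit false

open scoped Classical
open Finset Pool.Agent.H74.OLP

namespace Pool.Agent.H20.OLP

open Pool.Agent.H69.OC in
theorem pf_LFI : T_LFI := by
  intro V F _ _ G M hOK hst hLab
  obtain ⟨lam0, h1, h2⟩ := hLab
  set ed : G.Dart → G.edgeSet := fun d => ⟨d.edge, d.edge_mem⟩ with hed
  have hends : ∀ d : G.Dart, (M.s (ed d) = d.fst ∧ M.t (ed d) = d.snd) ∨
      (M.s (ed d) = d.snd ∧ M.t (ed d) = d.fst) := by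
    intro d
    have h3 : s(M.s (ed d), M.t (ed d)) = s(d.fst, d.snd) := hst (ed d)
    exact Sym2.eq_iff.1 h3
  have hsymm : ∀ d : G.Dart, ed d.symm = ed d := fun d => Subtype.ext d.edge_symm
  have hne : ∀ e, M.s e ≠ M.t e := hOK.st
  have key : ∀ (i1 : Fintype G.Dart) (i2 : Fintype G.edgeSet) (v : V) (P : G.edgeSet → Prop)
      (Q : G.Dart → Prop)
      (i3 : DecidablePred fun e : G.edgeSet => (M.s e = v ∨ M.t e = v) ∧ P e),
      (∀ d : G.Dart, d.fst = v → (Q d ↔ P (ed d))) →
      (sel (@univ G.Dart i1) fun d : G.Dart => d.fst = v ∧ Q d).card =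
        (@Finset.filter _ (fun e : G.edgeSet => (M.s e = v ∨ M.t e = v) ∧ P e) i3
          (@univ G.edgeSet i2)).card := by
    intro i1 i2 v P Q i3 hPQ
    refine Finset.card_bij (fun d _ => ed d) ?_ ?_ ?_
    · intro d hd
      obtain ⟨-, hd1, hd2⟩ := mem_sel.1 hd
      rw [mem_filter]
      refine ⟨mem_univ _, ?_, (hPQ d hd1).1 hd2⟩
      rcases hends d with h | h
      · left
        rw [h.1, hd1]
      · right
        rw [h.2, hd1]
    · intro d hd d' hd' he
      obtain ⟨-, hd1, -⟩ := mem_sel.1 hd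
      obtain ⟨-, hd1', -⟩ := mem_sel.1 hd'
      have h3 : s(d.fst, d.snd) = s(d'.fst, d'.snd) := congrArg Subtype.val he
      rw [hd1, hd1', Sym2.congr_right] at h3
      apply SimpleGraph.Dart.ext
      exact Prod.ext (hd1.trans hd1'.symm) h3
    · intro e he
      rw [mem_filter] at he
      obtain ⟨-, he1, he2⟩ := he
      have hadj : G.Adj (M.s e) (M.t e) := by
        rw [← SimpleGraph.mem_edgeSet, hst e]
        exact e.2
      rcases he1 with h | h
      · have h4 : ed ⟨(M.s e, M.t e), hadj⟩ = e := Subtype.ext (hst e)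
        refine ⟨⟨(M.s e, M.t e), hadj⟩, ?_, h4⟩
        rw [mem_sel]
        refine ⟨mem_univ _, h, (hPQ _ h).2 ?_⟩
        rw [h4]
        exact he2
      · have h4 : ed ⟨(M.t e, M.s e), hadj.symm⟩ = e :=
          Subtype.ext ((Sym2.eq_swap).trans (hst e))
        refine ⟨⟨(M.t e, M.s e), hadj.symm⟩, ?_, h4⟩
        rw [mem_sel]
        refine ⟨mem_univ _, h, (hPQ _ h).2 ?_⟩
        rw [h4]
        exact he2
  refine ⟨fun d => lam0 d.fst (ed d), ?_, ?_⟩
  · intro d _
    change lam0 d.fst (ed d) ≠ lam0 d.symm.fst (ed d.symm)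
    rw [hsymm]
    change lam0 d.fst (ed d) ≠ lam0 d.snd (ed d)
    have h3 := h1 (ed d)
    rcases hends d with h | h
    · rw [h.1, h.2] at h3
      exact h3
    · rw [h.1, h.2] at h3
      exact h3.symm
  · intro v k
    have h3 := h2 v k
    have h4 : ∀ d : G.Dart, d.fst = v → (lam0 d.fst (ed d) = k ↔ lam0 v (ed d) = k) := by
      intro d hd
      rw [hd]
    have h5 : ∀ d : G.Dart, d.fst = v → (lam0 d.symm.fst (ed d.symm) = k ↔
        ((M.s (ed d) = v → lam0 (M.t (ed d)) (ed d) = k) ∧
      (M.t (ed d) = v → lam0 (M.s (ed d)) (ed d) = k))) := by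
      intro d hd
      rw [hsymm]
      change lam0 d.snd (ed d) = k ↔ _
      rcases hends d with h | h
      · rw [h.1, h.2]
        constructor
        · intro h6
          refine ⟨fun _ => h6, fun h7 => ?_⟩
          exact absurd (hd.trans h7.symm) (G.ne_of_adj d.adj)
        · intro h6
          exact h6.1 hd
      · rw [h.1, h.2]
        constructor
        · intro h6
          refine ⟨fun h7 => ?_, fun _ => h6⟩
          exact absurd (hd.trans h7.symm) (G.ne_of_adj d.adj)
        · intro h6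
          exact h6.2 hd
    refine Eq.trans (key _ _ v (fun e => lam0 v e = k) (fun d => lam0 d.fst (ed d) = k) _ h4)
      (Eq.trans h3 (Eq.trans ?_ (key _ (Fintype.ofFinite _) v (fun e => (M.s e = v → lam0 (M.t e) e = k) ∧
      (M.t e = v → lam0 (M.s e) e = k)) (fun d => lam0 d.symm.fst (ed d.symm) = k) (fun _ => instDecidableAnd)
        h5).symm))
    refine congrArg Finset.card ?_
    ext e
    refine Iff.trans (Finset.mem_filter) (Iff.trans ?_ (Finset.mem_filter).symm)
    refine and_congr (iff_of_true (mem_univ _)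
      (@mem_univ G.edgeSet (Fintype.ofFinite _) _)) ?_
    have h7 := hne e
    constructor
    · rintro (⟨h, h8⟩ | ⟨h, h8⟩)
      · exact ⟨Or.inl h, fun _ => h8, fun h9 => absurd (h.trans h9.symm) h7⟩
      · exact ⟨Or.inr h, fun h9 => absurd (h9.trans h.symm) h7, fun _ => h8⟩
    · rintro ⟨h | h, h8, h9⟩
      · exact Or.inl ⟨h, h8 h⟩
      · exact Or.inr ⟨h, h9 h⟩

end Pool.Agent.H20.OLP
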